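import Pool.Agent.helper91.MM.Top

set_option autoImplicit false

/-!
# Sequence selection in `C_p(X)` and covers with boundedly many misses

Let `X` be a metric space such that `C_p(X)` satisfies `S_1(Gamma_0, Gamma_0)`, `K` a natural number and `𝒰 n` nonempty
families of open sets such that for infinitely many `n` the family `𝒰 n` has more than `K` members and every point of `X` lies
in all but at most `K` of them. Then one can choose `V n ∈ 𝒰 n` such that every point of `X` lies in `V n` for infinitely many `n`.

Sketch. Let `g j y` (`y` in the Cantor space, `j : ℕ`) be locally constant with `K + 1` values such that any `K + 1` different `y` are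
separated by `g j` for infinitely many `j`. The closed relations `R m` = (`x` misses the `g j y`-th set of the `j`-th good cover for
all `j ≥ m`) have at most `K` values `y` at each `x`. Points with `K` values are mapped continuously by closed subsets of `X`, and
such images are meager (a property of `C_p(X)`), so one can pass to a Cantor set on which there are at most `K - 1`
values, and so on, until some `y` is not a value.
-/

namespace Pool.Agent.Results.MP_bfc607_gt.BoundedMisses

theorem result (X : Type) [MetricSpace X]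
    (hX : ∀ A : ℕ → Set C(X, ℝ),
      (∀ n, (A n).Infinite ∧ (A n).Countable ∧ (0 : C(X, ℝ)) ∉ A n ∧
        ∀ x : X, ∀ ε : ℝ, 0 < ε → {f ∈ A n | ε ≤ |f x|}.Finite) →
      ∃ g : ℕ → C(X, ℝ), (∀ n, g n ∈ A n) ∧ (Set.range g).Infinite ∧
        ∀ x : X, ∀ ε : ℝ, 0 < ε → {f ∈ Set.range g | ε ≤ |f x|}.Finite)
    (K : ℕ) (𝒰 : ℕ → Set (Set X)) (hopen : ∀ n, ∀ U ∈ 𝒰 n, IsOpen U) (hne : ∀ n, (𝒰 n).Nonempty)
    (hK : {n | (K : ℕ∞) < (𝒰 n).encard ∧ ∀ x, {U ∈ 𝒰 n | x ∉ U}.encard ≤ (K : ℕ∞)}.Infinite) :
    ∃ V : ℕ → Set X, (∀ n, V n ∈ 𝒰 n) ∧ ∀ x, {n | x ∈ V n}.Infinite :=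
  Pool.Agent.MM.top_two X hX K 𝒰 hopen hne hK

end Pool.Agent.Results.MP_bfc607_gt.BoundedMisses
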