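import Pool.Agent.helper91.MM.Top

set_option autoImplicit false

/-!
# Sequence selection in `C_p(X)` against gamma-covers any two members of which cover `X`

Under the continuum hypothesis there are a set `X` of irrationals and open gamma-covers `𝒰 n` of `X` such that

* `C_p(Z)` satisfies `S_1(Gamma_0, Gamma_0)` for every subspace `Z` of `X` with countable complement `X \ Z`,
* any two different members of `𝒰 n` cover `X` (every point misses at most one member of `𝒰 n`),
* for every choice `V n ∈ 𝒰 n` some point of `X` lies outside infinitely many of the sets `V n`.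

Sketch. The forcing with block patterns of `SelectionUnderCH` (helper74), with the sets of at most `N` places, at most one
in every row: here the ultrafilter limit of the bad sets is finite, so it is contained in almost all of them.
-/

namespace Pool.Agent.Results.MP_bfc607_gt.OneMiss

theorem result (hCH : Cardinal.continuum.{0} = Cardinal.aleph.{0} 1) :
    ∃ X : Set ℝ, X ⊆ {x : ℝ | Irrational x} ∧
      (∀ Z : Set ℝ, Z ⊆ X → (X \ Z).Countable →
        ∀ A : ℕ → Set C(↥Z, ℝ),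
          (∀ n, (A n).Infinite ∧ (A n).Countable ∧ (0 : C(↥Z, ℝ)) ∉ A n ∧
            ∀ x : ↥Z, ∀ ε : ℝ, 0 < ε → {f ∈ A n | ε ≤ |f x|}.Finite) →
          ∃ g : ℕ → C(↥Z, ℝ), (∀ n, g n ∈ A n) ∧ (Set.range g).Infinite ∧
            ∀ x : ↥Z, ∀ ε : ℝ, 0 < ε → {f ∈ Set.range g | ε ≤ |f x|}.Finite) ∧
      ∃ 𝒰 : ℕ → Set (Set ↥X),
        (∀ n, (𝒰 n).Infinite ∧ (∀ U ∈ 𝒰 n, IsOpen U) ∧ (Set.univ : Set ↥X) ∉ 𝒰 n ∧
          ∀ U ∈ 𝒰 n, ∀ U' ∈ 𝒰 n, U ≠ U' → U ∪ U' = Set.univ) ∧
        ∀ V : ℕ → Set ↥X, (∀ n, V n ∈ 𝒰 n) → ∃ x : ↥X, {U ∈ Set.range V | x ∉ U}.Infinite :=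
  Pool.Agent.MM.top_three hCH

end Pool.Agent.Results.MP_bfc607_gt.OneMiss
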