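import Pool.Agent.helper14.SCO.Top

set_option autoImplicit false

/-!
# Sequence selection in `C_p(X)`, selection of omega-covers and selection of gamma-covers

Under the continuum hypothesis there is a set `X` of irrationals such that

* `C_p(X)` satisfies `S_1(Gamma_0, Gamma_0)` (the sequence selection property),
* `X` satisfies `S_1(Omega, Omega)`: from every sequence of open omega-covers one can choose one member of each so that
  the chosen sets form an omega-cover,
* `X` does not satisfy `S_1(Gamma, Gamma)`.

Sketch.  Work in the Cantor space, to each coordinate `e` attach a place `pos e ∈ ω × ω` such that each place is attached to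
infinitely many coordinates; `F w` is the closed set of the points vanishing on all coordinates attached to `w`.  A
default pattern vanishes exactly on the coordinates of a finite set of places.  A condition is a sequence of blocks with
large sets of patterns: on a large block all default patterns are allowed, and for each new place some pattern which
vanishes on this new place and on no other new place.  If clopen sets `W_k` converge pointwise to the empty set on the
points of a condition which lie in given open neighbourhoods `V_i` of the countable set `D` of points with default tails,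
then for all large `k` the patterns avoiding `W_k` are again large.  This gives `X` by a recursion of length `ω_1`, each
new point lying in all neighbourhoods of `D` defined from the earlier points; this concentration gives
`S_1(Omega, Omega)`.
-/

namespace Pool.Agent.Results.MP_bfc607_gt.SelectionOmega

theorem result (hCH : Cardinal.continuum.{0} = Cardinal.aleph.{0} 1) :
    ∃ X : Set ℝ, X ⊆ {x : ℝ | Irrational x} ∧
      (∀ A : ℕ → Set C(↥X, ℝ),
        (∀ n, (A n).Infinite ∧ (A n).Countable ∧ (0 : C(↥X, ℝ)) ∉ A n ∧
          ∀ x : ↥X, ∀ ε : ℝ, 0 < ε → {f ∈ A n | ε ≤ |f x|}.Finite) →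
        ∃ g : ℕ → C(↥X, ℝ), (∀ n, g n ∈ A n) ∧ (Set.range g).Infinite ∧
          ∀ x : ↥X, ∀ ε : ℝ, 0 < ε → {f ∈ Set.range g | ε ≤ |f x|}.Finite) ∧
      (∀ 𝒰 : ℕ → Set (Set ↥X),
        (∀ n, (∀ U ∈ 𝒰 n, IsOpen U) ∧ (Set.univ : Set ↥X) ∉ 𝒰 n ∧
          ∀ F : Finset ↥X, ∃ U ∈ 𝒰 n, (F : Set ↥X) ⊆ U) →
        ∃ V : ℕ → Set ↥X, (∀ n, V n ∈ 𝒰 n) ∧ ∀ F : Finset ↥X, ∃ n, (F : Set ↥X) ⊆ V n) ∧
      ∃ 𝒰 : ℕ → Set (Set ↥X),
        (∀ n, (𝒰 n).Infinite ∧ (∀ U ∈ 𝒰 n, IsOpen U) ∧ (Set.univ : Set ↥X) ∉ 𝒰 n ∧
          ∀ x : ↥X, {U ∈ 𝒰 n | x ∉ U}.Finite) ∧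
        ∀ V : ℕ → Set ↥X, (∀ n, V n ∈ 𝒰 n) → ∃ x : ↥X, {U ∈ Set.range V | x ∉ U}.Infinite :=
  Pool.Agent.SCO.top hCH

end Pool.Agent.Results.MP_bfc607_gt.SelectionOmega
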