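import Pool.Agent.helper91.MM.Top

set_option autoImplicit false

/-!
# Sequence selection in `C_p(X)` against selection of gamma-covers which are missed slowly

Let `k n` tend to infinity, as slowly as you like. Under the continuum hypothesis there are a set `X` of irrationals and
open gamma-covers `𝒰 n` of `X` such that

* `C_p(Z)` satisfies `S_1(Gamma_0, Gamma_0)` for every subspace `Z` of `X` with countable complement `X \ Z`,
* every point of `X` lies in all but at most `k n` members of `𝒰 n`,
* no choice of one member of each `𝒰 n` covers `X`.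

Sketch. The forcing with block patterns of `SelectionUnderCH` (helper74), with the sets of places having at most
`min N (k n)` points in the row `n`: in the main lemma the rows with small `k n` are finite in number, there the ultrafilter
limit of the bad sets is contained in almost all of them. Points can be excluded from the conditions, so each countable subset of
`X` is relatively `Gδ`; the complement inherits the selection property.
-/

namespace Pool.Agent.Results.MP_bfc607_gt.SlowMisses

theorem result (hCH : Cardinal.continuum.{0} = Cardinal.aleph.{0} 1) (k : ℕ → ℕ)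
    (hk : Filter.Tendsto k Filter.atTop Filter.atTop) (hk1 : ∀ n, 1 ≤ k n) :
    ∃ X : Set ℝ, X ⊆ {x : ℝ | Irrational x} ∧
      (∀ Z : Set ℝ, Z ⊆ X → (X \ Z).Countable →
        ∀ A : ℕ → Set C(↥Z, ℝ),
          (∀ n, (A n).Infinite ∧ (A n).Countable ∧ (0 : C(↥Z, ℝ)) ∉ A n ∧
            ∀ x : ↥Z, ∀ ε : ℝ, 0 < ε → {f ∈ A n | ε ≤ |f x|}.Finite) →
          ∃ g : ℕ → C(↥Z, ℝ), (∀ n, g n ∈ A n) ∧ (Set.range g).Infinite ∧
            ∀ x : ↥Z, ∀ ε : ℝ, 0 < ε → {f ∈ Set.range g | ε ≤ |f x|}.Finite) ∧
      ∃ 𝒰 : ℕ → Set (Set ↥X),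
        (∀ n, (𝒰 n).Infinite ∧ (∀ U ∈ 𝒰 n, IsOpen U) ∧ (Set.univ : Set ↥X) ∉ 𝒰 n ∧
          ∀ x : ↥X, {U ∈ 𝒰 n | x ∉ U}.encard ≤ (k n : ℕ∞)) ∧
        ∀ V : ℕ → Set ↥X, (∀ n, V n ∈ 𝒰 n) → (⋃ n, V n) ≠ Set.univ :=
  Pool.Agent.MM.top_one hCH k hk hk1

end Pool.Agent.Results.MP_bfc607_gt.SlowMisses
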